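import Mathlib
import Pool.Agent.Q10.Leavitt

/-!
# A strongly graded controlled ring which is not a crossed product
-/

open DirectSum

namespace Pool.Agent.Results.MP_26bbbf_al.ControlledNotCrossed

section Defs

variable {G : Type} [Group G] {R : Type} [Ring R]

/-- `R` is `G`-graded with components `A g`: it is the internal direct sum of the additive
subgroups `A g`, and `A g * A h ⊆ A (g h)`. -/
def IsGraded (A : G → AddSubgroup R) : Prop :=
  (iSupIndep A ∧ ⨆ g, A g = ⊤) ∧ ∀ g h, ∀ x ∈ A g, ∀ y ∈ A h, x * y ∈ A (g * h)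

/-- The grading is strong: every element of `A (g h)` is a finite sum of products of an element
of `A g` and an element of `A h`. -/
def IsStrong (A : G → AddSubgroup R) : Prop :=
  ∀ g h, AddSubgroup.closure {z | ∃ x ∈ A g, ∃ y ∈ A h, z = x * y} = A (g * h)

/-- `part A H` is `R_H`, the sum of the components with index in `H`. -/
def part (A : G → AddSubgroup R) (H : Set G) : AddSubgroup R := ⨆ h ∈ H, A h

/-- `M` is a sub-bimodule of `R` over the subring `S`. -/
def IsSubBimodule (S M : AddSubgroup R) : Prop := ∀ r ∈ S, ∀ m ∈ M, r * m ∈ M ∧ m * r ∈ M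

/-- `M` and `N` are isomorphic as bimodules over the subring `S`. -/
def BimoduleIso (S M N : AddSubgroup R) : Prop :=
  ∃ φ : M ≃+ N, ∀ r ∈ S, ∀ m m' : M,
    ((m' : R) = r * m → (φ m' : R) = r * φ m) ∧ ((m' : R) = m * r → (φ m' : R) = φ m * r)

/-- The graded ring is `G`-controlled: `H ↦ R_H` is a bijection from the subsets of `G` to the
`R_e`-sub-bimodules of `R`, and `R_S ≅ R_T` as `R_e`-bimodules only when `S = T`. -/
def IsControlled (A : G → AddSubgroup R) : Prop :=
  (∀ H, IsSubBimodule (A 1) (part A H)) ∧ Function.Injective (part A) ∧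
    (∀ M, IsSubBimodule (A 1) M → ∃ H, part A H = M) ∧
    ∀ S T, BimoduleIso (A 1) (part A S) (part A T) → S = T

/-- The graded ring is a crossed product: every component contains a unit of `R`. -/
def IsCrossedProduct (A : G → AddSubgroup R) : Prop := ∀ g, ∃ u ∈ A g, IsUnit u

end Defs

open Q10.Leavitt

noncomputable section

/-- The homogeneous element of degree `d` given by the operator `s`. -/
def hom (d : ℤ) (s : Op) (hs : s ∈ Ed d) : Q10.Leavitt.R := DirectSum.of (fun d => Ed d) d ⟨s, hs⟩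

theorem ext' {x y : Q10.Leavitt.R} (h : ∀ k, (x k : Op) = y k) : x = y :=
  DFinsupp.ext fun k => Subtype.ext (h k)

theorem hom_same (d : ℤ) (s : Op) (hs : s ∈ Ed d) : ((hom d s hs) d : Op) = s := by
  rw [hom, DirectSum.of_eq_same]

theorem hom_ne {d k : ℤ} (s : Op) (hs : s ∈ Ed d) (h : k ≠ d) : ((hom d s hs) k : Op) = 0 := by
  rw [hom, DirectSum.of_eq_of_ne _ _ _ h]
  rfl

theorem hom_congr {d e : ℤ} {s t : Op} (hs : s ∈ Ed d) (ht : t ∈ Ed e) (h : s = t) (hde : d = e) :
    hom d s hs = hom e t ht := by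
  subst h
  subst hde
  rfl

theorem hom_mul {d e : ℤ} {s t : Op} (hs : s ∈ Ed d) (ht : t ∈ Ed e) :
    hom d s hs * hom e t ht = hom (d + e) (s * t) (Hom.mul hs ht) := by
  rw [hom, hom, DirectSum.of_mul_of]
  rfl

theorem hom_add {d : ℤ} {s t : Op} (hs : s ∈ Ed d) (ht : t ∈ Ed d) :
    hom d s hs + hom d t ht = hom d (s + t) (add_mem hs ht) := by
  rw [hom, hom, ← map_add]
  rfl

theorem hom_neg {d : ℤ} {s : Op} (hs : s ∈ Ed d) :
    -hom d s hs = hom d (-s) (neg_mem hs) := by
  rw [hom, ← map_neg]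
  rfl

theorem hom_zero {d : ℤ} : hom d 0 (zero_mem _) = 0 := by
  rw [hom]
  exact map_zero _

theorem left_apply {u : Op} (hu : u ∈ Ed 0) (x : Q10.Leavitt.R) (k : ℤ) :
    ((hom 0 u hu * x) k : Op) = u * x k := by
  have := DirectSum.coe_of_mul_apply_add (A := Ed) (⟨u, hu⟩ : Ed 0) x k
  rw [zero_add] at this
  exact this

theorem right_apply {u : Op} (hu : u ∈ Ed 0) (x : Q10.Leavitt.R) (k : ℤ) :
    ((x * hom 0 u hu) k : Op) = x k * u := by
  have := DirectSum.coe_mul_of_apply_add (A := Ed) x (⟨u, hu⟩ : Ed 0) k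
  rw [add_zero] at this
  exact this

/-- The components. -/
def A (g : Multiplicative ℤ) : AddSubgroup Q10.Leavitt.R :=
  (DirectSum.of (fun d => Ed d) (Multiplicative.toAdd g)).range

theorem mem_A {g : Multiplicative ℤ} {x : Q10.Leavitt.R} :
    x ∈ A g ↔ ∃ s, ∃ hs : s ∈ Ed (Multiplicative.toAdd g), x = hom (Multiplicative.toAdd g) s hs := by
  constructor
  · rintro ⟨⟨s, hs⟩, rfl⟩
    exact ⟨s, hs, rfl⟩
  · rintro ⟨s, hs, rfl⟩
    exact ⟨⟨s, hs⟩, rfl⟩

theorem hom_mem (d : ℤ) (s : Op) (hs : s ∈ Ed d) : hom d s hs ∈ A (Multiplicative.ofAdd d) :=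
  mem_A.mpr ⟨s, hs, rfl⟩

theorem mem_A' {g : Multiplicative ℤ} {x : Q10.Leavitt.R} :
    x ∈ A g ↔ ∀ k : ℤ, Multiplicative.ofAdd k ≠ g → x k = 0 := by
  constructor
  · intro h k hk
    obtain ⟨s, hs, rfl⟩ := mem_A.mp h
    exact Subtype.ext (hom_ne s hs (fun h => hk (by rw [h]; rfl)))
  · intro h
    refine mem_A.mpr ⟨x (Multiplicative.toAdd g), (x (Multiplicative.toAdd g)).2, ?_⟩
    apply ext'
    intro k
    by_cases hk : k = Multiplicative.toAdd g
    · rw [hk, hom_same]
    · rw [hom_ne _ _ hk, h k (fun h' => hk (by rw [← h']; rfl))]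
      rfl

theorem sum_hom (x : Q10.Leavitt.R) :
    ∃ K : Finset ℤ, (∀ k ∉ K, x k = 0) ∧ x = ∑ k ∈ K, hom k (x k) (x k).2 := by
  classical
  refine ⟨DFinsupp.support x, fun k hk => ?_, ?_⟩
  · rwa [DFinsupp.notMem_support_iff] at hk
  · exact (DirectSum.sum_support_of x).symm

theorem mem_part {H : Set (Multiplicative ℤ)} {x : Q10.Leavitt.R} :
    x ∈ part A H ↔ ∀ k : ℤ, Multiplicative.ofAdd k ∉ H → x k = 0 := by
  constructor
  · intro h k hk
    let P : AddSubgroup Q10.Leavitt.R :=
      { carrier := {y | y k = 0}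
        zero_mem' := rfl
        add_mem' := fun {a b} ha hb => by
          change (a + b) k = 0
          rw [DirectSum.add_apply, show a k = 0 from ha, show b k = 0 from hb, add_zero]
        neg_mem' := fun {a} ha => by
          change (-a) k = 0
          have : (-a) k = -(a k) := rfl
          rw [this, show a k = 0 from ha, neg_zero] }
    have : part A H ≤ P := by
      refine iSup₂_le fun g hg => ?_
      intro y hy
      exact mem_A'.mp hy k (fun h => hk (h ▸ hg))
    exact this h
  · intro h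
    obtain ⟨K, hK, hx⟩ := sum_hom x
    rw [hx]
    refine AddSubgroup.sum_mem _ fun k _ => ?_
    by_cases hk : Multiplicative.ofAdd k ∈ H
    · exact (le_iSup₂_of_le (f := fun g (_ : g ∈ H) => A g) (Multiplicative.ofAdd k) hk
        (le_refl _)) (hom_mem k _ _)
    · have := h k hk
      have h0 : hom k (x k) (x k).2 = 0 := by
        rw [← hom_zero (d := k)]
        exact hom_congr _ _ (by rw [this]; rfl) rfl
      rw [h0]
      exact zero_mem _

theorem exists_ne_zero (d : ℤ) : ∃ s : Op, s ∈ Ed d ∧ s ≠ 0 := by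
  refine ⟨L (2 ^ d.toNat) (2 ^ (-d).toNat) (fun i j => if i = 0 ∧ j = 0 then 1 else 0),
    ⟨d.toNat, (-d).toNat, by omega, _, rfl⟩, ?_⟩
  intro h
  have h1 := congrFun (LinearMap.congr_fun h (Pi.single 0 1)) 0
  rw [L_apply, Finset.sum_eq_single 0] at h1
  · simp at h1
  · intro b _ hb
    simp [hb]
  · intro h
    exact absurd (Finset.mem_range.mpr (by positivity)) h

theorem subBimodule_part (H : Set (Multiplicative ℤ)) : IsSubBimodule (A 1) (part A H) := by
  intro r hr m hm
  obtain ⟨u, hu, rfl⟩ := mem_A.mp hr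
  rw [mem_part] at hm ⊢
  rw [mem_part]
  constructor
  · intro k hk
    apply Subtype.ext
    have := left_apply hu m k
    rw [hm k hk] at this
    rw [ZeroMemClass.coe_zero, mul_zero] at this
    exact this
  · intro k hk
    apply Subtype.ext
    have := right_apply hu m k
    rw [hm k hk] at this
    rw [ZeroMemClass.coe_zero, zero_mul] at this
    exact this

theorem hom_mem_one {u : Op} (hu : u ∈ Ed 0) : hom 0 u hu ∈ A 1 := hom_mem 0 u hu

/-- Sub-bimodules contain the components they meet nontrivially. -/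
theorem contains {M : AddSubgroup Q10.Leavitt.R} (hM : IsSubBimodule (A 1) M) {x : Q10.Leavitt.R}
    (hx : x ∈ M) {g : ℤ} (hg : x g ≠ 0) (s : Op) (hs : s ∈ Ed g) : hom g s hs ∈ M := by
  classical
  obtain ⟨u, v, hu, hv, h1, h2⟩ := sep_finset ((DFinsupp.support x).erase g)
    (Finset.notMem_erase _ _) (T := x g) (x g).2 (fun h => hg (Subtype.ext h))
    (fun k => x k) (fun k => (x k).2)
  have hy : hom 0 u hu * x * hom 0 v hv ∈ M :=
    (hM _ (hom_mem_one hv) _ (hM _ (hom_mem_one hu) _ hx).1).2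
  have hTd : Hom g (u * x g * v) := by
    have := (Hom.mul (Hom.mul hu (x g).2) hv)
    rwa [zero_add, add_zero] at this
  have hy' : hom 0 u hu * x * hom 0 v hv = hom g (u * x g * v) hTd := by
    apply ext'
    intro k
    rw [right_apply, left_apply]
    by_cases hk : k = g
    · subst hk
      rw [hom_same]
    · rw [hom_ne _ _ hk]
      by_cases hk' : k ∈ DFinsupp.support x
      · exact h2 k (Finset.mem_erase.mpr ⟨hk, hk'⟩)
      · rw [DFinsupp.notMem_support_iff] at hk'
        rw [hk']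
        simp
  rw [hy'] at hy
  have key : ∀ S ∈ AddSubgroup.closure
      {X : Op | ∃ a b : Op, Hom 0 a ∧ Hom 0 b ∧ X = a * (u * x g * v) * b},
      ∃ hS : S ∈ Ed g, hom g S hS ∈ M := by
    intro S hS
    induction hS using AddSubgroup.closure_induction with
    | mem X hX =>
      obtain ⟨a, b, ha, hb, rfl⟩ := hX
      have h3 : Hom g (a * (u * x g * v) * b) := by
        have := Hom.mul (Hom.mul ha hTd) hb
        rwa [zero_add, add_zero] at this
      refine ⟨h3, ?_⟩
      have h4 : hom 0 a ha * hom g _ hTd * hom 0 b hb ∈ M :=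
        (hM _ (hom_mem_one hb) _ (hM _ (hom_mem_one ha) _ hy).1).2
      rw [hom_mul, hom_mul] at h4
      rwa [hom_congr _ h3 rfl (by ring)] at h4
    | zero => exact ⟨zero_mem _, by rw [hom_zero]; exact zero_mem _⟩
    | add X Y _ _ hX hY =>
      obtain ⟨hX, hX'⟩ := hX
      obtain ⟨hY, hY'⟩ := hY
      exact ⟨add_mem hX hY, by rw [← hom_add hX hY]; exact add_mem hX' hY'⟩
    | neg X _ hX =>
      obtain ⟨hX, hX'⟩ := hX
      exact ⟨neg_mem hX, by rw [← hom_neg hX]; exact neg_mem hX'⟩
  obtain ⟨_, h⟩ := key s (simple hTd h1 hs)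
  exact h

theorem iso_sub {S T : Set (Multiplicative ℤ)} (h : BimoduleIso (A 1) (part A S) (part A T)) :
    S ⊆ T := by
  classical
  obtain ⟨φ, hφ⟩ := h
  intro g hg
  by_contra hgT
  obtain ⟨s, hs, hs0⟩ := exists_ne_zero (Multiplicative.toAdd g)
  have hx : hom (Multiplicative.toAdd g) s hs ∈ part A S := by
    rw [mem_part]
    intro k hk
    apply Subtype.ext
    exact hom_ne _ _ (fun h => hk (by rw [h]; exact hg))
  obtain ⟨y, hy⟩ : ∃ y, y = φ ⟨_, hx⟩ := ⟨_, rfl⟩
  have hyg : (y : Q10.Leavitt.R) (Multiplicative.toAdd g) = 0 :=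
    mem_part.mp y.2 (Multiplicative.toAdd g) hgT
  obtain ⟨u, v, hu, hv, h1, h2⟩ := sep_finset (DFinsupp.support (y : Q10.Leavitt.R))
    (d := Multiplicative.toAdd g) (by rw [DFinsupp.notMem_support_iff]; exact hyg) (T := s) hs hs0
    (fun k => (y : Q10.Leavitt.R) k) (fun k => ((y : Q10.Leavitt.R) k).2)
  have hb1 := subBimodule_part S _ (hom_mem_one hu) _ hx
  have hb2 := subBimodule_part S _ (hom_mem_one hv) _ hb1.1
  have e1 := (hφ _ (hom_mem_one hu) ⟨_, hx⟩ ⟨_, hb1.1⟩).1 rfl
  have e2 := (hφ _ (hom_mem_one hv) ⟨_, hb1.1⟩ ⟨_, hb2.2⟩).2 rfl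
  rw [e1, ← hy] at e2
  have e3 : hom 0 u hu * (y : Q10.Leavitt.R) * hom 0 v hv = 0 := by
    apply ext'
    intro k
    rw [right_apply, left_apply]
    by_cases hk' : k ∈ DFinsupp.support (y : Q10.Leavitt.R)
    · rw [h2 k hk']; rfl
    · rw [DFinsupp.notMem_support_iff] at hk'
      rw [hk']
      simp
  rw [e3] at e2
  have e4 : φ ⟨_, hb2.2⟩ = 0 := Subtype.ext e2
  rw [map_eq_zero_iff φ φ.injective] at e4
  have e5 : hom 0 u hu * hom (Multiplicative.toAdd g) s hs * hom 0 v hv = 0 :=
    congrArg Subtype.val e4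
  apply h1
  have e6 := left_apply hu (hom (Multiplicative.toAdd g) s hs) (Multiplicative.toAdd g)
  have e7 := right_apply hv (hom 0 u hu * hom (Multiplicative.toAdd g) s hs)
    (Multiplicative.toAdd g)
  rw [e5, e6, hom_same] at e7
  rw [← e7]
  rfl

theorem iso_symm {S T : Set (Multiplicative ℤ)} (h : BimoduleIso (A 1) (part A S) (part A T)) :
    BimoduleIso (A 1) (part A T) (part A S) := by
  obtain ⟨φ, hφ⟩ := h
  refine ⟨φ.symm, ?_⟩
  intro r hr n n'
  have hb := subBimodule_part S r hr _ (φ.symm n).2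
  constructor
  · intro h
    have e1 := (hφ r hr (φ.symm n) ⟨_, hb.1⟩).1 rfl
    rw [φ.apply_symm_apply, ← h] at e1
    have e2 : φ ⟨_, hb.1⟩ = n' := Subtype.ext e1
    rw [← e2, φ.symm_apply_apply]
  · intro h
    have e1 := (hφ r hr (φ.symm n) ⟨_, hb.2⟩).2 rfl
    rw [φ.apply_symm_apply, ← h] at e1
    have e2 : φ ⟨_, hb.2⟩ = n' := Subtype.ext e1
    rw [← e2, φ.symm_apply_apply]

/-- There are a group `G` and a strongly `G`-graded, `G`-controlled ring which is not a
`G`-crossed product. -/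
theorem result : ∃ (G : Type) (_ : Group G) (R : Type) (_ : Ring R) (A : G → AddSubgroup R),
    IsGraded A ∧ IsStrong A ∧ IsControlled A ∧ ¬ IsCrossedProduct A := by
  refine ⟨Multiplicative ℤ, inferInstance, Q10.Leavitt.R, inferInstance, A, ⟨⟨?_, ?_⟩, ?_⟩, ?_,
    ⟨subBimodule_part, ?_, ?_, ?_⟩, ?_⟩
  · intro g
    rw [AddSubgroup.disjoint_def]
    intro x hx hx'
    have h1 := mem_A'.mp hx
    have h2 : x ∈ part A {g}ᶜ := hx'
    rw [mem_part] at h2
    apply ext'
    intro k
    by_cases hk : Multiplicative.ofAdd k = g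
    · rw [h2 k (fun h => h hk)]; rfl
    · rw [h1 k hk]; rfl
  · rw [eq_top_iff]
    intro x _
    have : x ∈ part A Set.univ := mem_part.mpr (fun k hk => absurd (Set.mem_univ _) hk)
    have h2 : part A Set.univ ≤ ⨆ g, A g := iSup₂_le fun g _ => le_iSup A g
    exact h2 this
  · intro g h x hx y hy
    obtain ⟨s, hs, rfl⟩ := mem_A.mp hx
    obtain ⟨t, ht, rfl⟩ := mem_A.mp hy
    rw [hom_mul]
    exact hom_mem _ _ _
  · intro g h
    apply le_antisymm
    · rw [AddSubgroup.closure_le]
      rintro z ⟨x, hx, y, hy, rfl⟩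
      obtain ⟨s, hs, rfl⟩ := mem_A.mp hx
      obtain ⟨t, ht, rfl⟩ := mem_A.mp hy
      rw [hom_mul]
      exact hom_mem _ _ _
    · intro z hz
      obtain ⟨w, hw, rfl⟩ := mem_A.mp hz
      have key : ∀ X ∈ AddSubgroup.closure {X : Op | ∃ u v : Op, Hom (Multiplicative.toAdd g) u ∧
          Hom (-(Multiplicative.toAdd g)) v ∧ X = u * v},
          ∃ hX : X * w ∈ Ed (Multiplicative.toAdd (g * h)), hom _ (X * w) hX ∈
            AddSubgroup.closure {z | ∃ x ∈ A g, ∃ y ∈ A h, z = x * y} := by
        intro X hX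
        induction hX using AddSubgroup.closure_induction with
        | mem X hX =>
          obtain ⟨u, v, hu, hv, rfl⟩ := hX
          have hvw : Hom (Multiplicative.toAdd h) (v * w) := by
            have := Hom.mul hv hw
            rwa [toAdd_mul, neg_add_cancel_left] at this
          have h3 : Hom (Multiplicative.toAdd (g * h)) (u * v * w) := by
            have := Hom.mul hu hvw
            rwa [← mul_assoc] at this
          refine ⟨h3, AddSubgroup.subset_closure ?_⟩
          refine ⟨hom _ u hu, hom_mem _ _ _, hom _ (v * w) hvw, hom_mem _ _ _, ?_⟩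
          rw [hom_mul]
          exact hom_congr _ _ (mul_assoc _ _ _) rfl
        | zero =>
          refine ⟨by rw [zero_mul]; exact zero_mem _, ?_⟩
          have : hom (Multiplicative.toAdd (g * h)) (0 * w) (by rw [zero_mul]; exact zero_mem _) =
              0 := by
            rw [← hom_zero]
            exact hom_congr _ _ (zero_mul _) rfl
          rw [this]
          exact zero_mem _
        | add X Y _ _ hX hY =>
          obtain ⟨hX, hX'⟩ := hX
          obtain ⟨hY, hY'⟩ := hY
          refine ⟨by rw [add_mul]; exact add_mem hX hY, ?_⟩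
          have := add_mem hX' hY'
          rw [hom_add] at this
          rwa [hom_congr _ _ (add_mul X Y w) rfl]
        | neg X _ hX =>
          obtain ⟨hX, hX'⟩ := hX
          refine ⟨by rw [show -X * w = -(X * w) from neg_mul X w]; exact neg_mem hX, ?_⟩
          have := neg_mem hX'
          rw [hom_neg] at this
          rwa [hom_congr _ _ (neg_mul X w) rfl]
      obtain ⟨h1, h2⟩ := key 1 (one_mem (Multiplicative.toAdd g))
      rwa [hom_congr _ hw (one_mul w) rfl] at h2
  · intro H H' hHH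
    have key : ∀ {H H' : Set (Multiplicative ℤ)}, part A H = part A H' → H ⊆ H' := by
      intro H H' h g hg
      by_contra hg'
      obtain ⟨s, hs, hs0⟩ := exists_ne_zero (Multiplicative.toAdd g)
      have hx : hom (Multiplicative.toAdd g) s hs ∈ part A H := by
        rw [mem_part]
        intro k hk
        apply Subtype.ext
        exact hom_ne _ _ (fun h => hk (by rw [h]; exact hg))
      rw [h, mem_part] at hx
      have := hx (Multiplicative.toAdd g) hg'
      apply hs0
      rw [← hom_same (Multiplicative.toAdd g) s hs, this]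
      rfl
    exact Set.Subset.antisymm (key hHH) (key hHH.symm)
  · intro M hM
    refine ⟨{g | ∃ x ∈ M, x (Multiplicative.toAdd g) ≠ 0}, ?_⟩
    apply le_antisymm
    · refine iSup₂_le fun g hg => ?_
      obtain ⟨x, hx, hxg⟩ := hg
      intro y hy
      obtain ⟨s, hs, rfl⟩ := mem_A.mp hy
      exact contains hM hx hxg s hs
    · intro x hx
      rw [mem_part]
      intro k hk
      by_contra hk'
      exact hk ⟨x, hx, hk'⟩
  · intro S T h
    exact Set.Subset.antisymm (iso_sub h) (iso_sub (iso_symm h))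
  · intro h
    obtain ⟨x, hx, ⟨x', y, hxy, hyx⟩, hxy'⟩ := h (Multiplicative.ofAdd 1)
    obtain rfl : x' = x := hxy'
    obtain ⟨s, hs, rfl⟩ := mem_A.mp hx
    have e1 := DirectSum.coe_of_mul_apply_add (A := Ed) (⟨s, hs⟩ : Ed (1 : ℤ)) y (-1)
    have e2 := DirectSum.coe_mul_of_apply_add (A := Ed) y (⟨s, hs⟩ : Ed (1 : ℤ)) (-1)
    have h1 : ((1 : Q10.Leavitt.R) 0 : Op) = 1 := hom_same 0 1 Hom.one
    have e3 : s * (y (-1) : Op) = 1 := by
      rw [← h1, ← hxy]
      exact e1.symm
    have e4 : (y (-1) : Op) * s = 1 := by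
      rw [← h1, ← hyx]
      exact e2.symm
    have := unit_degree (d := 1) hs (y (-1)).2 e3 e4
    omega

end

end Pool.Agent.Results.MP_26bbbf_al.ControlledNotCrossed
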